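import Pool.Agent.Helper58_MOO.Stmts

/-!
Squad MOO (MP_6f3246_lc), modules BMR and CSL.
-/

open Cardinal
open Pool.Agent.Helper69_LOTS

namespace Pool.Agent.MOO.H84

open Node Filter

/-- An unbounded chain of nodes of `T` gives a branch. -/
theorem no_chain {T : Set Node} (hT : AT T) {Z : Set Node} (hZ : ∀ x ∈ Z, x ∈ T)
    (hunb : ∀ δ, ∃ x ∈ Z, δ < x.ht) (hch : ∀ x ∈ Z, ∀ y ∈ Z, x ≤ y ∨ y ≤ x) : False := by
  classical
  choose f hf hf' using hunb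
  refine hT.nobr ⟨fun ξ => (f ξ).val ξ, fun δ => ?_⟩
  have h1 : ofBr (fun ξ => (f ξ).val ξ) δ = (f δ).res δ := by
    refine Node.ext ?_ (funext fun η => ?_)
    · rw [res_ht_of_le (hf' δ).le]; rfl
    · rw [res_val]
      change (if η < δ then (f η).val η else false) = _
      by_cases hη : η < δ
      · rw [if_pos hη, if_pos hη]
        rcases hch _ (hf η) _ (hf δ) with h | h
        · exact h.2 _ (hf' η)
        · exact (h.2 _ (hη.trans (hf' δ))).symm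
      · rw [if_neg hη, if_neg hη]
  rw [h1]
  exact hT.down _ (hZ _ (hf δ)) δ

theorem bmr : BmrStmt := by
  classical
  intro T S hT hS 𝒲 h𝒲
  let Bad : Om → Prop := fun δ => ∃ w ∈ 𝒲, (∀ x ∈ w.1, δ ≤ x.ht) ∧ (∀ y ∈ w.2, δ ≤ y.ht) ∧
    ∀ w' ∈ 𝒲, (∀ x ∈ w'.1, x.ht < δ) → (∀ y ∈ w'.2, y.ht < δ) →
      (∃ x ∈ w.1, ∃ x' ∈ w'.1, ¬ Inc x x') ∨ (∃ y ∈ w.2, ∃ y' ∈ w'.2, ¬ Inc y y')
  by_cases hst : Stat {δ | Bad δ}
  swap
  · unfold Stat at hst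
    push Not at hst
    obtain ⟨C, hC, h1⟩ := hst
    refine ⟨C, hC, fun δ hδ w hw hx hy => ?_⟩
    by_contra hcon
    refine h1 δ ?_ hδ
    refine ⟨w, hw, hx, hy, fun w' hw' hx' hy' => ?_⟩
    by_contra h2
    push Not at h2
    exact hcon ⟨w', hw', hx', hy', h2.1, h2.2⟩
  exfalso
  -- choose bad pairs
  have hch : ∀ δ, ∃ w : Finset Node × Finset Node, Bad δ → (w ∈ 𝒲 ∧ (∀ x ∈ w.1, δ ≤ x.ht) ∧
      (∀ y ∈ w.2, δ ≤ y.ht) ∧
      ∀ w' ∈ 𝒲, (∀ x ∈ w'.1, x.ht < δ) → (∀ y ∈ w'.2, y.ht < δ) →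
      (∃ x ∈ w.1, ∃ x' ∈ w'.1, ¬ Inc x x') ∨ (∃ y ∈ w.2, ∃ y' ∈ w'.2, ¬ Inc y y')) := by
    intro δ
    by_cases h : Bad δ
    · obtain ⟨w, hw⟩ := h
      exact ⟨w, fun _ => hw⟩
    · exact ⟨(∅, ∅), fun h' => absurd h' h⟩
  choose W hW using hch
  have hbd : ∀ δ, ∃ β : Om, (∀ x ∈ (W δ).1, x.ht < β) ∧ ∀ y ∈ (W δ).2, y.ht < β := by
    intro δ
    obtain ⟨β, hβ⟩ := Om_bdd (A := Node.ht '' ({x | x ∈ (W δ).1} ∪ {x | x ∈ (W δ).2}))
      (Set.Countable.image (Set.Finite.countable ((W δ).1.finite_toSet.union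
        (W δ).2.finite_toSet)) _)
    exact ⟨β, fun x hx => hβ _ ⟨x, Or.inl hx, rfl⟩, fun x hx => hβ _ ⟨x, Or.inr hx, rfl⟩⟩
  choose bd hbd1 hbd2 using hbd
  have hD : Clb {δ | ∀ ξ, ξ < δ → δ ∈ {δ | bd ξ ≤ δ}} := by
    refine Clb.diag (fun ξ => ⟨fun α => ?_, fun δ h1 h2 => ?_⟩)
    · obtain ⟨β, hβ⟩ := Om_exists_gt (max α (bd ξ))
      exact ⟨β, (le_max_right _ _).trans hβ.le, (le_max_left _ _).trans_lt hβ⟩
    · obtain ⟨ζ, hζ⟩ := h1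
      obtain ⟨η, hη, -, h3⟩ := h2 ζ hζ
      exact le_trans hη h3.le
  have hst1 := hst.inter hD
  -- fix the numbers of elements
  obtain ⟨⟨n, m⟩, hst2⟩ := hst1.pigeon (ι := ℕ × ℕ)
    (R := fun δ a => (W δ).1.card = a.1 ∧ (W δ).2.card = a.2)
    (fun δ _ => ⟨((W δ).1.card, (W δ).2.card), rfl, rfl⟩)
  set S' : Set Om := {δ | δ ∈ {δ | Bad δ} ∩ {δ | ∀ ξ, ξ < δ → δ ∈ {δ | bd ξ ≤ δ}} ∧
    (W δ).1.card = (n, m).1 ∧ (W δ).2.card = (n, m).2} with hS'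
  let dflt : Node := ⟨Classical.arbitrary Om, fun _ => false, fun _ _ => rfl⟩
  let g : Bool → Om → ℕ → Node := fun c δ a =>
    if c then (W δ).1.toList.getD a dflt else (W δ).2.toList.getD a dflt
  have hg1 : ∀ δ ∈ S', ∀ x ∈ (W δ).1, ∃ a < n + m, g true δ a = x := by
    intro δ hδ x hx
    obtain ⟨a, ha, hax⟩ := List.getElem_of_mem (Finset.mem_toList.2 hx)
    refine ⟨a, ?_, ?_⟩
    · rw [Finset.length_toList, hδ.2.1] at ha
      exact lt_of_lt_of_le ha (Nat.le_add_right n m)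
    · simp only [g, if_true]
      rw [List.getD_eq_getElem _ _ ha]
      exact hax
  have hg2 : ∀ δ ∈ S', ∀ x ∈ (W δ).2, ∃ a < n + m, g false δ a = x := by
    intro δ hδ x hx
    obtain ⟨a, ha, hax⟩ := List.getElem_of_mem (Finset.mem_toList.2 hx)
    refine ⟨a, ?_, ?_⟩
    · rw [Finset.length_toList, hδ.2.2] at ha
      exact lt_of_lt_of_le ha (Nat.le_add_left m n)
    · simp only [g, Bool.false_eq_true, if_false]
      rw [List.getD_eq_getElem _ _ ha]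
      exact hax
  let TS : Bool → Set Node := fun c => if c then T else S
  have hTS : ∀ c, AT (TS c) := by
    intro c
    cases c
    · exact hS
    · exact hT
  -- the relation
  let Q : Om → Bool × ℕ × ℕ → Om → Prop := fun i c j =>
    g c.1 i c.2.1 ∈ TS c.1 ∧ i ≤ (g c.1 i c.2.1).ht ∧ g c.1 i c.2.1 ≤ g c.1 j c.2.2
  have hcov : ∀ i ∈ S', ∀ j ∈ S', i < j → ∃ c ∈ (Finset.univ : Finset Bool) ×ˢ
      (Finset.range (n + m) ×ˢ Finset.range (n + m)), Q i c j := by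
    intro i hi j hj hij
    have hWi := hW i hi.1.1
    have hWj := hW j hj.1.1
    have h1 := hWj.2.2.2 (W i) hWi.1
      (fun x hx => (hbd1 i x hx).trans_le (hj.1.2 i hij))
      (fun x hx => (hbd2 i x hx).trans_le (hj.1.2 i hij))
    rcases h1 with ⟨x, hx, x', hx', h2⟩ | ⟨x, hx, x', hx', h2⟩
    · obtain ⟨b, hb, hb'⟩ := hg1 j hj x hx
      obtain ⟨a, ha, ha'⟩ := hg1 i hi x' hx'
      refine ⟨(true, a, b), by simp [ha, hb], ?_, ?_, ?_⟩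
      · show g true i a ∈ T
        rw [ha']
        exact (h𝒲 _ hWi.1).1 x' hx'
      · show i ≤ (g true i a).ht
        rw [ha']
        exact hWi.2.1 x' hx'
      · show g true i a ≤ g true j b
        rw [ha', hb']
        have h3 : x'.ht < x.ht := ((hbd1 i x' hx').trans_le (hj.1.2 i hij)).trans_le
          (hWj.2.1 x hx)
        unfold Inc at h2
        by_contra h4
        exact h2 ⟨fun h5 => absurd h5.1 (not_le.2 h3), h4⟩
    · obtain ⟨b, hb, hb'⟩ := hg2 j hj x hx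
      obtain ⟨a, ha, ha'⟩ := hg2 i hi x' hx'
      refine ⟨(false, a, b), by simp [ha, hb], ?_, ?_, ?_⟩
      · show g false i a ∈ S
        rw [ha']
        exact (h𝒲 _ hWi.1).2 x' hx'
      · show i ≤ (g false i a).ht
        rw [ha']
        exact hWi.2.2.1 x' hx'
      · show g false i a ≤ g false j b
        rw [ha', hb']
        have h3 : x'.ht < x.ht := ((hbd2 i x' hx').trans_le (hj.1.2 i hij)).trans_le
          (hWj.2.2.1 x hx)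
        unfold Inc at h2
        by_contra h4
        exact h2 ⟨fun h5 => absurd h5.1 (not_le.2 h3), h4⟩
  -- an ultrafilter
  have hne : NeBot (atTop ⊓ 𝓟 S' : Filter Om) := by
    rw [← Filter.frequently_mem_iff_neBot, Filter.frequently_atTop]
    intro α
    obtain ⟨β, hβ, hαβ⟩ := hst2.unbounded α
    exact ⟨β, hαβ.le, hβ⟩
  let U : Ultrafilter Om := Ultrafilter.of (atTop ⊓ 𝓟 S')
  have hU : (U : Filter Om) ≤ atTop ⊓ 𝓟 S' := Ultrafilter.of_le _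
  have hU1 : ∀ i : Om, {j | j ∈ S' ∧ i < j} ∈ U := by
    intro i
    have h1 : S' ∈ (U : Filter Om) := hU (Filter.mem_inf_of_right (Filter.mem_principal_self _))
    have h2 : {j | i < j} ∈ (U : Filter Om) := by
      apply hU
      apply Filter.mem_inf_of_left
      obtain ⟨i', hi'⟩ := Om_exists_gt i
      exact Filter.mem_of_superset (Filter.mem_atTop i') (fun j hj => hi'.trans_le hj)
    exact Filter.inter_mem h1 h2
  have hQ : ∀ i ∈ S', ∃ c : Bool × ℕ × ℕ, {j | Q i c j} ∈ U := by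
    intro i hi
    have h1 : (⋃ c ∈ ((Finset.univ : Finset Bool) ×ˢ
      (Finset.range (n + m) ×ˢ Finset.range (n + m)) : Finset (Bool × ℕ × ℕ)), {j | Q i c j})
        ∈ U := by
      refine Filter.mem_of_superset (hU1 i) (fun j hj => ?_)
      obtain ⟨c, hc, hQ⟩ := hcov i hi j hj.1 hj.2
      exact Set.mem_biUnion (Finset.mem_coe.2 hc) hQ
    obtain ⟨c, -, hc⟩ := (Ultrafilter.finite_biUnion_mem_iff (Finset.finite_toSet _)).1 h1
    exact ⟨c, hc⟩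
  obtain ⟨⟨c, a, b⟩, hst3⟩ := hst2.pigeon (R := fun i c => {j | Q i c j} ∈ U) hQ
  refine no_chain (hTS c) (Z := (fun i => g c i a) ''
    {i | i ∈ S' ∧ {j | Q i (c, a, b) j} ∈ U}) ?_ ?_ ?_
  · rintro x ⟨i, hi, rfl⟩
    obtain ⟨j, hj⟩ := U.nonempty_of_mem hi.2
    exact hj.1
  · intro δ
    obtain ⟨i, hi, hδi⟩ := hst3.unbounded δ
    refine ⟨g c i a, ⟨i, hi, rfl⟩, ?_⟩
    obtain ⟨j, hj⟩ := U.nonempty_of_mem hi.2
    exact hδi.trans_le hj.2.1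
  · rintro x ⟨i, hi, rfl⟩ y ⟨i', hi', rfl⟩
    obtain ⟨j, hj, hj'⟩ := U.nonempty_of_mem (Filter.inter_mem hi.2 hi'.2)
    exact le_total_of_le hj.2.2 hj'.2.2

/-! ### CSL -/

/-- From some level on there is no lexicographically least (greatest) extension of `u`. `R` is
`Lx` or its converse. -/
theorem csl_aux {S : Set Node} (hS : AT S) {R : Node → Node → Prop}
    (hR : ∀ {s t s' t' : Node}, R s t → s ≤ s' → t ≤ t' → R s' t')
    (hR2 : ∀ {s t : Node}, Inc s t → R s t ∨ R t s) (u : Node) (hu : u ∈ S) :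
    ∃ δ, u.ht < δ ∧ ∀ δ', δ ≤ δ' → ∀ s ∈ S, s.ht = δ' → u ≤ s → ∃ t ∈ S, t.ht = δ' ∧ u ≤ t ∧
      R t s := by
  classical
  have key : ∀ δ δ', u.ht < δ → δ ≤ δ' → ∀ s ∈ S, s.ht = δ' → u ≤ s →
      (∀ t ∈ S, t.ht = δ' → u ≤ t → ¬ R t s) → ∀ t ∈ S, t.ht = δ → u ≤ t → ¬ R t (s.res δ) := by
    intro δ δ' h1 h2 s hs hs' hus hle t ht ht' hut hcon
    obtain ⟨t', ht1, ht2, ht3⟩ := hS.ext t ht δ' (by rw [ht']; exact h2)
    exact hle t' ht1 ht3 (hut.trans ht2) (hR hcon ht2 (res_le _ _))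
  by_contra hcon
  push Not at hcon
  have h1 : ∀ δ, u.ht < δ → ∃ s ∈ S, s.ht = δ ∧ u ≤ s ∧
      ∀ t ∈ S, t.ht = δ → u ≤ t → ¬ R t s := by
    intro δ hδ
    obtain ⟨δ', hδ', s, hs, hs', hus, h2⟩ := hcon δ hδ
    refine ⟨s.res δ, hS.down s hs δ, res_ht_of_le (by rw [hs']; exact hδ'), le_res hus hδ.le, ?_⟩
    exact key δ δ' hδ hδ' s hs hs' hus h2
  refine no_chain hS (Z := {s | s ∈ S ∧ u.ht < s.ht ∧ u ≤ s ∧
    ∀ t ∈ S, t.ht = s.ht → u ≤ t → ¬ R t s}) (fun x hx => hx.1) ?_ ?_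
  · intro δ
    obtain ⟨δ', hδ'⟩ := Om_exists_gt (max δ u.ht)
    obtain ⟨s, hs, hs', hus, h2⟩ := h1 δ' ((le_max_right _ _).trans_lt hδ')
    refine ⟨s, ⟨hs, ?_, hus, ?_⟩, ?_⟩
    · rw [hs']; exact (le_max_right _ _).trans_lt hδ'
    · rw [hs']; exact h2
    · rw [hs']; exact (le_max_left _ _).trans_lt hδ'
  · have h3 : ∀ x y : Node, x ∈ {s | s ∈ S ∧ u.ht < s.ht ∧ u ≤ s ∧
        ∀ t ∈ S, t.ht = s.ht → u ≤ t → ¬ R t s} → y ∈ {s | s ∈ S ∧ u.ht < s.ht ∧ u ≤ s ∧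
        ∀ t ∈ S, t.ht = s.ht → u ≤ t → ¬ R t s} → x.ht ≤ y.ht → x ≤ y := by
      intro x y hx hy hxy
      have h4 := key x.ht y.ht hx.2.1 hxy y hy.1 rfl hy.2.2.1 hy.2.2.2
      by_contra h5
      have h6 : x ≠ y.res x.ht := fun h6 => h5 (h6 ▸ res_le _ _)
      have h7 : (y.res x.ht).ht = x.ht := res_ht_of_le hxy
      rcases hR2 (inc_of_ht_eq h7.symm h6) with h8 | h8
      · exact h4 x hx.1 rfl hx.2.2.1 h8
      · exact hx.2.2.2 _ (hS.down y hy.1 _) h7 (le_res hy.2.2.1 hx.2.1.le) h8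
    intro x hx y hy
    rcases le_total x.ht y.ht with h | h
    · exact Or.inl (h3 x y hx hy h)
    · exact Or.inr (h3 y x hy hx h)

theorem csl : CslStmt := by
  classical
  intro S hS
  have hl := fun u hu => csl_aux hS (R := Lx) (fun h h1 h2 => Lx.mono h h1 h2)
    (fun h => Inc.lx_or h) u hu
  have hr := fun u hu => csl_aux hS (R := fun s t => Lx t s) (fun h h1 h2 => Lx.mono h h2 h1)
    (fun h => (Inc.lx_or h).symm) u hu
  choose! dl hdl1 hdl2 using hl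
  choose! dr hdr1 hdr2 using hr
  have hb : ∀ ξ : Om, ∃ β : Om, ∀ v ∈ S, v.ht = ξ → dl v ≤ β ∧ dr v ≤ β := by
    intro ξ
    obtain ⟨β, hβ⟩ := Om_bdd (A := (fun v => max (dl v) (dr v)) '' {s | s ∈ S ∧ s.ht = ξ})
      ((hS.lev ξ).image _)
    exact ⟨β, fun v hv hv' => ⟨(le_max_left _ _).trans (hβ _ ⟨v, ⟨hv, hv'⟩, rfl⟩).le,
      (le_max_right _ _).trans (hβ _ ⟨v, ⟨hv, hv'⟩, rfl⟩).le⟩⟩
  choose bd hbd using hb
  have hD : Clb {δ | ∀ ξ, ξ < δ → δ ∈ {δ | bd ξ ≤ δ}} := by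
    refine Clb.diag (fun ξ => ⟨fun α => ?_, fun δ h1 h2 => ?_⟩)
    · obtain ⟨β, hβ⟩ := Om_exists_gt (max α (bd ξ))
      exact ⟨β, (le_max_right _ _).trans hβ.le, (le_max_left _ _).trans_lt hβ⟩
    · obtain ⟨ζ, hζ⟩ := h1
      obtain ⟨η, hη, -, h3⟩ := h2 ζ hζ
      exact le_trans hη h3.le
  have hleft : ∀ δ ∈ {δ | ∀ ξ, ξ < δ → δ ∈ {δ | bd ξ ≤ δ}}, ∀ u ∈ S, u.ht < δ → ∀ s ∈ S,
      s.ht = δ → u ≤ s → ∃ t ∈ S, t.ht = δ ∧ u ≤ t ∧ Lx t s := by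
    intro δ hδ u hu huδ s hs hs' hus
    exact hdl2 u hu δ ((hbd u.ht u hu rfl).1.trans (hδ _ huδ)) s hs hs' hus
  have hright : ∀ δ ∈ {δ | ∀ ξ, ξ < δ → δ ∈ {δ | bd ξ ≤ δ}}, ∀ u ∈ S, u.ht < δ → ∀ s ∈ S,
      s.ht = δ → u ≤ s → ∃ t ∈ S, t.ht = δ ∧ u ≤ t ∧ Lx s t := by
    intro δ hδ u hu huδ s hs hs' hus
    exact hdr2 u hu δ ((hbd u.ht u hu rfl).2.trans (hδ _ huδ)) s hs hs' hus
  refine ⟨{δ | ∀ ξ, ξ < δ → δ ∈ {δ | bd ξ ≤ δ}} ∩ {δ | IsLim δ}, hD.inter Clb.lim,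
    fun δ hδ => hδ.2, fun δ hδ => hleft δ hδ.1, fun δ hδ => hright δ hδ.1, ?_⟩
  intro δ hδ u hu huδ s hs t ht hs' ht' hus hut hst
  obtain ⟨w, hw, hw'⟩ := hst
  have h1 : w.ht < δ := by rw [← hs']; exact hw.2.2.1
  obtain ⟨η, hη1, hη2⟩ := hδ.2.2 _ h1
  have h2 : (s.res η).ht = η := res_ht_of_le (by rw [hs']; exact hη2.le)
  have h3 : Mt w (s.res η) t := hw.of_le (res_le _ _) le_rfl (by rw [h2]; exact hη1) hw.2.2.2.1
  have h4 : Lx (s.res η) t := ⟨w, h3, by rw [res_val_of_lt hη1]; exact hw'⟩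
  have h5 : u ≤ s.res η := by
    rcases le_total_of_le hus (res_le s η) with h | h
    · exact h
    · exact absurd (h.trans hut) h3.inc.1
  obtain ⟨v, hv, hv', hsv, hlx⟩ := hright δ hδ.1 (s.res η) (hS.down s hs η)
    (by rw [h2]; exact hη2) s hs hs' (res_le _ _)
  exact ⟨v, hv, hv', h5.trans hsv, hlx, h4.mono hsv le_rfl⟩

end Pool.Agent.MOO.H84
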